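import Pool.Agent.H523.AH.Stm3

set_option autoImplicit false
set_option linter.unusedSectionVars false

/-! # The mean square of `Λ * Λ` over `F_q[t]` -/

namespace Pool.Agent.H106.AHN4

open Polynomial Finset
open Pool.Agent.H341R2.Sharp (Mon mem_Mon)
open Pool.Agent.H523.FF (Ir mem_Ir)
open Pool.Agent.H523.CM (lam lam_nonneg lam_le sum_lam_total sum_lam_real)
open Pool.Agent.H523.AH

open scoped Classical

variable {F : Type} [Field F] [Fintype F]

/-- the weight of the irreducible polynomial `P` -/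
noncomputable def G (n : F[X]) (a : ℕ) (P : F[X]) : ℝ :=
  if P.natDegree ∣ a ∧ P ^ (a / P.natDegree) ∣ n then (P.natDegree : ℝ) else 0

theorem G_nonneg (n : F[X]) (a : ℕ) (P : F[X]) : 0 ≤ G n a P := by
  unfold G; split_ifs <;> positivity

theorem stepA (n : F[X]) (hn : n ≠ 0) {a : ℕ} (ha : 1 ≤ a) :
    ∑ e ∈ a.divisors, ∑ P ∈ Ir F e, (e:ℝ) * (if P ^ (a / e) ∣ n then 1 else 0) ≤
      ∑ P ∈ (UniqueFactorizationMonoid.normalizedFactors n).toFinset, G n a P := by
  have h1 : ∀ e ∈ a.divisors, ∑ P ∈ Ir F e, (e:ℝ) * (if P ^ (a / e) ∣ n then (1:ℝ) else 0) =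
      ∑ P ∈ Ir F e, G n a P := by
    intro e he
    refine sum_congr rfl (fun P hP => ?_)
    obtain ⟨_, _, h3⟩ := mem_Ir.mp hP
    unfold G
    rw [h3]
    by_cases h : P ^ (a / e) ∣ n
    · rw [if_pos h, if_pos ⟨(Nat.mem_divisors.mp he).1, h⟩, mul_one]
    · rw [if_neg h, if_neg (fun h' => h h'.2), mul_zero]
  rw [sum_congr rfl h1, ← Finset.sum_biUnion]
  · rw [← Finset.sum_filter_ne_zero]
    refine Finset.sum_le_sum_of_subset_of_nonneg ?_ (fun P _ _ => G_nonneg n a P)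
    intro P hP
    rw [Finset.mem_filter, Finset.mem_biUnion] at hP
    obtain ⟨⟨e, he, hPe⟩, hG⟩ := hP
    obtain ⟨h1, h2, h3⟩ := mem_Ir.mp hPe
    rw [Multiset.mem_toFinset, Polynomial.mem_normalizedFactors_iff hn]
    refine ⟨h2, h1, ?_⟩
    unfold G at hG
    have h4 : P.natDegree ∣ a ∧ P ^ (a / P.natDegree) ∣ n := by
      by_contra h; exact hG (if_neg h)
    have h5 : 0 < P.natDegree := h2.natDegree_pos
    have h6 : a / P.natDegree ≠ 0 := (Nat.div_pos (Nat.le_of_dvd ha h4.1) h5).ne'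
    exact (dvd_pow_self P h6).trans h4.2
  · intro x _ y _ hxy
    rw [Function.onFun, Finset.disjoint_left]
    intro P hx hy
    exact hxy ((mem_Ir.mp hx).2.2.symm.trans (mem_Ir.mp hy).2.2)

theorem stepB (n : F[X]) (hn : n ≠ 0) (N : ℕ) {P : F[X]} (hP : Irreducible P) (hm : P.Monic) :
    ∑ a ∈ Ico 1 N, G n a P ≤
      ((UniqueFactorizationMonoid.normalizedFactors n).count P : ℝ) * P.natDegree := by
  unfold G
  rw [← Finset.sum_filter, Finset.sum_const, nsmul_eq_mul]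
  refine mul_le_mul_of_nonneg_right ?_ (Nat.cast_nonneg _)
  rw [Nat.cast_le]
  have h5 : 0 < P.natDegree := hP.natDegree_pos
  have h0 : (Finset.Icc 1 ((UniqueFactorizationMonoid.normalizedFactors n).count P)).card =
      (UniqueFactorizationMonoid.normalizedFactors n).count P := by
    rw [Nat.card_Icc, Nat.add_sub_cancel]
  rw [← h0]
  refine Finset.card_le_card_of_injOn (fun a => a / P.natDegree) ?_ ?_
  · intro a ha
    rw [Finset.mem_coe, Finset.mem_filter, Finset.mem_Ico] at ha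
    obtain ⟨⟨h1, h2⟩, h3, h4⟩ := ha
    rw [Finset.mem_coe, Finset.mem_Icc]
    refine ⟨Nat.div_pos (Nat.le_of_dvd h1 h3) h5, ?_⟩
    rw [pow_dvd_iff_le_emultiplicity,
      UniqueFactorizationMonoid.emultiplicity_eq_count_normalizedFactors hP hn,
      hm.normalize_eq_self] at h4
    exact_mod_cast h4
  · intro a ha b hb hab
    rw [Finset.mem_coe, Finset.mem_filter] at ha hb
    have h1 := Nat.div_mul_cancel ha.2.1
    have h2 := Nat.div_mul_cancel hb.2.1
    have hab' : a / P.natDegree = b / P.natDegree := hab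
    rw [← h1, ← h2, hab']

/-- the sum of the von Mangoldt function over the divisors -/
theorem sum_dvd (n : F[X]) (hn : n.Monic) (N : ℕ) :
    ∑ a ∈ Ico 1 N, ∑ f ∈ Mon F a, lam a f * (if f ∣ n then 1 else 0) ≤ (n.natDegree : ℝ) := by
  have h1 : ∑ a ∈ Ico 1 N, ∑ f ∈ Mon F a, lam a f * (if f ∣ n then (1:ℝ) else 0) ≤
      ∑ a ∈ Ico 1 N, ∑ P ∈ (UniqueFactorizationMonoid.normalizedFactors n).toFinset, G n a P := by
    refine sum_le_sum (fun a ha => ?_)
    rw [sum_lam_real a (fun f => if f ∣ n then (1:ℝ) else 0)]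
    exact stepA n hn.ne_zero (Finset.mem_Ico.mp ha).1
  refine h1.trans ?_
  rw [Finset.sum_comm]
  have h2 : ∀ P ∈ (UniqueFactorizationMonoid.normalizedFactors n).toFinset,
      ∑ a ∈ Ico 1 N, G n a P ≤
      ((UniqueFactorizationMonoid.normalizedFactors n).count P : ℝ) * P.natDegree := by
    intro P hP
    rw [Multiset.mem_toFinset, Polynomial.mem_normalizedFactors_iff hn.ne_zero] at hP
    exact stepB n hn.ne_zero N hP.1 hP.2.1
  refine (sum_le_sum h2).trans (le_of_eq ?_)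
  have h3 : n.natDegree = ((UniqueFactorizationMonoid.normalizedFactors n).map natDegree).sum := by
    have h4 : (UniqueFactorizationMonoid.normalizedFactors n).prod = n := by
      rw [UniqueFactorizationMonoid.prod_normalizedFactors_eq hn.ne_zero, hn.normalize_eq_self]
    conv_lhs => rw [← h4]
    refine Polynomial.natDegree_multiset_prod_of_monic _ (fun P hP => ?_)
    rw [Polynomial.mem_normalizedFactors_iff hn.ne_zero] at hP
    exact hP.2.1
  rw [h3, Finset.sum_multiset_map_count]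
  push_cast
  refine sum_congr rfl (fun P _ => ?_)
  rw [smul_eq_mul, Nat.cast_mul]

theorem LL_nonneg (j : ℕ) (n : F[X]) : 0 ≤ LL j n := by
  unfold LL
  refine sum_nonneg (fun a _ => sum_nonneg (fun f _ => sum_nonneg (fun g _ => ?_)))
  split_ifs
  · exact mul_nonneg (lam_nonneg _ _) (lam_nonneg _ _)
  · exact le_rfl

/-- the pointwise bound -/
theorem LL_le (j : ℕ) (n : F[X]) (hn : n ∈ Mon F j) : LL j n ≤ (j:ℝ) ^ 2 := by
  obtain ⟨hn1, hn2⟩ := mem_Mon.mp hn
  have h1 : LL j n ≤ ∑ a ∈ Ico 1 j, ∑ f ∈ Mon F a, (j:ℝ) * (lam a f * (if f ∣ n then 1 else 0)) := by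
    unfold LL
    refine sum_le_sum (fun a ha => sum_le_sum (fun f hf => ?_))
    obtain ⟨ha1, ha2⟩ := Finset.mem_Ico.mp ha
    obtain ⟨hf1, hf2⟩ := mem_Mon.mp hf
    by_cases hd : f ∣ n
    · obtain ⟨g₀, hg₀⟩ := hd
      rw [if_pos ⟨g₀, hg₀⟩]
      have h2 : ∀ g ∈ Mon F (j - a), (if f * g = n then lam a f * lam (j - a) g else 0) ≤
          if g = g₀ then (j:ℝ) * lam a f else 0 := by
        intro g _
        by_cases hg : f * g = n
        · have hgg : g = g₀ := mul_left_cancel₀ hf1.ne_zero (hg.trans hg₀)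
          rw [if_pos hg, if_pos hgg, mul_comm]
          refine mul_le_mul_of_nonneg_right ?_ (lam_nonneg _ _)
          refine (lam_le (j - a) (by omega) g).trans ?_
          exact_mod_cast Nat.sub_le j a
        · rw [if_neg hg]
          split_ifs
          · exact mul_nonneg (Nat.cast_nonneg _) (lam_nonneg _ _)
          · exact le_rfl
      refine (sum_le_sum h2).trans ?_
      rw [Finset.sum_ite_eq' (Mon F (j - a)) g₀ (fun _ => (j:ℝ) * lam a f), mul_one]
      split_ifs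
      · exact le_rfl
      · exact mul_nonneg (Nat.cast_nonneg _) (lam_nonneg _ _)
    · rw [if_neg hd, mul_zero, mul_zero]
      refine le_of_eq (sum_eq_zero (fun g _ => ?_))
      rw [if_neg]
      intro h
      exact hd ⟨g, h.symm⟩
  refine h1.trans ?_
  have h3 : ∑ a ∈ Ico 1 j, ∑ f ∈ Mon F a, (j:ℝ) * (lam a f * (if f ∣ n then (1:ℝ) else 0)) =
      (j:ℝ) * ∑ a ∈ Ico 1 j, ∑ f ∈ Mon F a, lam a f * (if f ∣ n then (1:ℝ) else 0) := by
    rw [Finset.mul_sum]
    exact sum_congr rfl (fun a _ => by rw [Finset.mul_sum])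
  rw [h3, pow_two]
  refine mul_le_mul_of_nonneg_left ?_ (Nat.cast_nonneg _)
  have := sum_dvd n hn1 j
  rwa [hn2] at this

/-- the mean value -/
theorem sum_LL (j : ℕ) : ∑ n ∈ Mon F j, LL j n ≤ (j:ℝ) * (Fintype.card F : ℝ) ^ j := by
  have h1 : ∑ n ∈ Mon F j, LL j n = ∑ a ∈ Ico 1 j, ∑ f ∈ Mon F a, ∑ g ∈ Mon F (j - a),
      lam a f * lam (j - a) g := by
    unfold LL
    rw [Finset.sum_comm]
    refine sum_congr rfl (fun a ha => ?_)
    obtain ⟨ha1, ha2⟩ := Finset.mem_Ico.mp ha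
    rw [Finset.sum_comm]
    refine sum_congr rfl (fun f hf => ?_)
    rw [Finset.sum_comm]
    refine sum_congr rfl (fun g hg => ?_)
    obtain ⟨hf1, hf2⟩ := mem_Mon.mp hf
    obtain ⟨hg1, hg2⟩ := mem_Mon.mp hg
    have hfg : f * g ∈ Mon F j := by
      rw [mem_Mon]
      refine ⟨hf1.mul hg1, ?_⟩
      rw [hf1.natDegree_mul hg1, hf2, hg2]
      omega
    rw [Finset.sum_ite_eq (Mon F j) (f * g) (fun _ => lam a f * lam (j - a) g), if_pos hfg]
  have h2 : ∀ a ∈ Ico 1 j, ∑ f ∈ Mon F a, ∑ g ∈ Mon F (j - a), lam a f * lam (j - a) g =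
      (Fintype.card F : ℝ) ^ j := by
    intro a ha
    obtain ⟨ha1, ha2⟩ := Finset.mem_Ico.mp ha
    rw [← Finset.sum_mul_sum, sum_lam_total ha1, sum_lam_total (by omega : 1 ≤ j - a), ← pow_add]
    congr 1
    omega
  rw [h1, sum_congr rfl h2, Finset.sum_const, Nat.card_Ico, nsmul_eq_mul]
  refine mul_le_mul_of_nonneg_right ?_ (by positivity)
  exact_mod_cast Nat.sub_le j 1

theorem main : S_N4 := by
  refine ⟨1, zero_le_one, fun F _ _ j => ?_⟩
  have h1 : ∑ n ∈ Mon F j, (LL j n) ^ 2 ≤ ∑ n ∈ Mon F j, (j:ℝ) ^ 2 * LL j n := by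
    refine sum_le_sum (fun n hn => ?_)
    rw [pow_two]
    exact mul_le_mul_of_nonneg_right (LL_le j n hn) (LL_nonneg j n)
  refine h1.trans ?_
  rw [← Finset.mul_sum, one_mul]
  calc (j:ℝ) ^ 2 * ∑ n ∈ Mon F j, LL j n ≤ (j:ℝ) ^ 2 * ((j:ℝ) * (Fintype.card F : ℝ) ^ j) :=
        mul_le_mul_of_nonneg_left (sum_LL j) (by positivity)
    _ = (j:ℝ) ^ 3 * (Fintype.card F : ℝ) ^ j := by ring

end Pool.Agent.H106.AHN4
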